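import Mathlib
import Pool.Agent.Y947.RL.Stm2

/-!
# Project RL: means over primitive roots, and equality of the polynomials fixed by the stabiliser

Written by helper70.
-/

set_option autoImplicit false

open Finset Polynomial Module Pool.Agent.H388SL Pool.Agent.Y947.DL Pool.Agent.Y947.RL

namespace Pool.Agent.Y70.RL

/-- the `p`-th roots of a primitive `q`-th root of unity, `p ∣ q`, have order `p * q` -/
theorem prim_of_pow {p q : ℕ} (hpq : p ∣ q) {ω : ℂ}
    (h : IsPrimitiveRoot (ω ^ p) q) : IsPrimitiveRoot ω (p * q) := by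
  refine ⟨?_, ?_⟩
  · rw [pow_mul]
    exact h.pow_eq_one
  · intro l hl
    have h1 : q ∣ l := by
      refine h.dvd_of_pow_eq_one l ?_
      rw [← pow_mul, mul_comm, pow_mul, hl, one_pow]
    obtain ⟨k, rfl⟩ := hpq.trans h1
    have h2 : q ∣ k := by
      refine h.dvd_of_pow_eq_one k ?_
      rw [← pow_mul]
      exact hl
    exact Nat.mul_dvd_mul_left p h2

theorem mea : S_MEA := by
  classical
  intro m p hm hp hpm f
  obtain ⟨q, hq⟩ : ∃ q, m = p * q := (dvd_of_mul_left_dvd (pow_two p ▸ hpm))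
  have hp0 : 0 < p := hp.pos
  have hpq : p ∣ q := by
    rw [hq, pow_two] at hpm
    exact Nat.dvd_of_mul_dvd_mul_left hp0 hpm
  have hq0 : 0 < q := by
    rcases Nat.eq_zero_or_pos q with h | h
    · rw [h, mul_zero] at hq
      omega
    · exact h
  have hmp : m / p = q := by
    rw [hq]
    exact Nat.mul_div_cancel_left q hp0
  have htot : Nat.totient m = p * Nat.totient q := by
    rw [hq]
    exact Nat.totient_mul_of_prime_of_dvd hp hpq
  have hfib : ∀ η ∈ primitiveRoots q ℂ,
      ∑ ω ∈ (primitiveRoots m ℂ).filter (fun ω => ω ^ p = η), f (ω ^ p) = p * f η := by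
    intro η hη
    have hη' : IsPrimitiveRoot η q := (mem_primitiveRoots hq0).1 hη
    have hη0 : η ≠ 0 := hη'.ne_zero hq0.ne'
    have hprim : IsPrimitiveRoot (Complex.exp (2 * Real.pi * Complex.I / p)) p :=
      Complex.isPrimitiveRoot_exp p hp0.ne'
    have e : (primitiveRoots m ℂ).filter (fun ω => ω ^ p = η) = (nthRoots p η).toFinset := by
      ext ω
      rw [Finset.mem_filter, Multiset.mem_toFinset, mem_nthRoots hp0, mem_primitiveRoots hm]
      constructor
      · exact fun h => h.2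
      · intro h
        refine ⟨?_, h⟩
        rw [hq]
        refine prim_of_pow hpq ?_
        rw [h]
        exact hη'
    have hcard : (nthRoots p η).toFinset.card = p := by
      rw [Multiset.toFinset_card_of_nodup (hprim.nthRoots_nodup hη0), hprim.card_nthRoots, if_pos]
      exact IsAlgClosed.exists_pow_nat_eq η hp0
    have h1 : ∑ ω ∈ (primitiveRoots m ℂ).filter (fun ω => ω ^ p = η), f (ω ^ p) =
        ∑ ω ∈ (primitiveRoots m ℂ).filter (fun ω => ω ^ p = η), f η := by
      refine Finset.sum_congr rfl fun ω hω => ?_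
      rw [(Finset.mem_filter.1 hω).2]
    rw [h1, e, Finset.sum_const, hcard, nsmul_eq_mul]
  have hsum : ∑ ω ∈ primitiveRoots m ℂ, f (ω ^ p) = p * ∑ η ∈ primitiveRoots q ℂ, f η := by
    rw [← Finset.sum_fiberwise_of_maps_to (s := primitiveRoots m ℂ) (t := primitiveRoots q ℂ)
      (g := fun ω => ω ^ p), Finset.mul_sum]
    · exact Finset.sum_congr rfl hfib
    · intro ω hω
      rw [mem_primitiveRoots hm] at hω
      rw [mem_primitiveRoots hq0]
      exact hω.pow hm hq
  have hφ : (0 : ℝ) < Nat.totient q := by exact_mod_cast Nat.totient_pos.2 hq0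
  have hpR : (0 : ℝ) < p := by exact_mod_cast hp0
  unfold meanP
  rw [hsum, hmp, htot, Nat.cast_mul]
  field_simp

theorem fxe (hTR : S_TR) : S_FXE := by
  classical
  intro K _ _ m ζ α hC u hu hfix ω hω
  obtain ⟨-, -, hcard⟩ := hTR K m ζ hC.hm hC.hζ
  have hω' : IsPrimitiveRoot (ω ^ u) m := hω.pow_of_coprime u hu
  have hφ : 0 < Nat.totient m := Nat.totient_pos.2 hC.hm
  have hc : (cls ζ (ω ^ u)).card = (cls ζ ω).card := by
    have h1 := hcard ω hω
    have h2 := hcard _ hω'
    rw [← h1] at h2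
    exact Nat.eq_of_mul_eq_mul_right hφ h2
  choose g hg1 hg2 using hfix
  have hmem : ∀ (w : ℂ) (τ : K →ₐ[ℚ] ℂ), τ ∈ cls ζ w ↔ τ ζ = w := by
    intro w τ
    unfold cls
    rw [Finset.mem_filter]
    exact ⟨fun h => h.2, fun h => ⟨Finset.mem_univ _, h⟩⟩
  have hinj : Set.InjOn g (cls ζ ω : Set (K →ₐ[ℚ] ℂ)) := by
    intro σ hσ τ hτ h
    have h1 : σ ζ = ω := (hmem _ _).1 hσ
    have h2 : τ ζ = ω := (hmem _ _).1 hτ
    refine hC.gen σ τ (h1.trans h2.symm) ?_
    rw [← hg2 σ, ← hg2 τ, h]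
  have himg : (cls ζ ω).image g = cls ζ (ω ^ u) := by
    refine Finset.eq_of_subset_of_card_le ?_ ?_
    · intro τ hτ
      obtain ⟨σ, hσ, rfl⟩ := Finset.mem_image.1 hτ
      rw [hmem] at hσ ⊢
      rw [hg1, hσ]
    · rw [hc, Finset.card_image_of_injOn hinj]
  rw [← himg, Finset.prod_image hinj]
  refine Finset.prod_congr rfl fun σ _ => ?_
  rw [hg2]

end Pool.Agent.Y70.RL
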